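import Pool.Agent.Helper79.GS.St3

/-!
# Project GS, module SED: a good modulus for the weights
-/

set_option autoImplicit false

namespace Pool.Agent.Helper70.GS

open Pool.Agent.Helper79.GS

private lemma small (L : ℕ) : L + 4 ≤ 2 ^ (L + 2) := by
  induction L with
  | zero => norm_num
  | succ n ih =>
    have h : 2 ^ (n + 1 + 2) = 2 * 2 ^ (n + 2) := by ring
    omega

theorem hSED (hMDL : StMDL) (hNZB : StNZB) : StSED := by
  intro L Z hfin hcard hz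
  obtain ⟨n, hn⟩ : ∃ n : ℕ, n = 2 ^ L := ⟨_, rfl⟩
  obtain ⟨B, hB⟩ : ∃ B : ℕ, B = 2 ^ (L + 3) := ⟨_, rfl⟩
  have hBn : B = 8 * n := by rw [hB, hn]; ring
  have hn1 : 1 ≤ n := by rw [hn]; exact Nat.one_le_two_pow
  let S : (Fin (2 ^ L) → Fin (2 ^ L) → ℤ) → ℤ := fun z =>
    ∑ i, ∑ j, z i j * (B : ℤ) ^ (i.val * 2 ^ L + j.val)
  have hS : ∀ z ∈ Z, S z ≠ 0 ∧ |S z| < (B : ℤ) ^ (2 ^ L * 2 ^ L) := fun z hzZ =>
    hNZB (2 ^ L) (2 * 2 ^ L) B z (by rw [← hn]; omega) (hz z hzZ).2 (hz z hzZ).1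
  obtain ⟨P, hP⟩ : ∃ P : ℕ, P = ∏ z ∈ hfin.toFinset, (S z).natAbs := ⟨_, rfl⟩
  have hP0 : 0 < P := by
    rw [hP]
    refine Finset.prod_pos fun z hzZ => ?_
    exact Int.natAbs_pos.2 (hS z (hfin.mem_toFinset.1 hzZ)).1
  obtain ⟨K, hK⟩ : ∃ K : ℕ, K = (L + 3) * (n * n) * (2 * n) ^ 4 := ⟨_, rfl⟩
  have hPK : P ≤ 2 ^ K := by
    have h1 : P ≤ ∏ _z ∈ hfin.toFinset, B ^ (n * n) := by
      rw [hP]
      refine Finset.prod_le_prod (fun _ _ => Nat.zero_le _) fun z hzZ => ?_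
      have h2 := (hS z (hfin.mem_toFinset.1 hzZ)).2
      rw [← hn, Int.abs_eq_natAbs] at h2
      have h3 : (S z).natAbs < B ^ (n * n) := by exact_mod_cast h2
      exact h3.le
    refine h1.trans ?_
    rw [Finset.prod_const, ← Set.ncard_eq_toFinset_card Z hfin]
    have h4 : B ^ (n * n) = 2 ^ ((L + 3) * (n * n)) := by rw [hB, ← pow_mul]
    rw [h4, ← pow_mul, hK]
    refine Nat.pow_le_pow_right (by norm_num) (Nat.mul_le_mul_left _ ?_)
    rw [hn]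
    exact hcard
  obtain ⟨t, ht1, ht2, ht3⟩ := hMDL (K + 1) P (by omega) hP0 (by
    refine hPK.trans_lt ?_
    exact Nat.pow_lt_pow_right (by norm_num) (by omega))
  refine ⟨t, ht1, ht2.trans ?_, fun z hzZ h0 => ht3 ?_⟩
  · have h1 := small L
    have h2 : 2 ^ (7 * L + 7) = 32 * 2 ^ (L + 2) * n ^ 6 := by
      rw [hn]
      ring
    have h3 : 2 * (K + 1) = 32 * (L + 3) * n ^ 6 + 2 := by
      rw [hK]
      ring
    have h4 : 1 ≤ n ^ 6 := Nat.one_le_pow _ _ hn1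
    rw [h2, h3]
    calc 32 * (L + 3) * n ^ 6 + 2 ≤ 32 * (L + 3) * n ^ 6 + 32 * n ^ 6 := by omega
      _ = 32 * (L + 4) * n ^ 6 := by ring
      _ ≤ 32 * 2 ^ (L + 2) * n ^ 6 := by gcongr
  · have h1 : (t : ℤ) ∣ S z := by
      have h2 : S z = S z - ∑ i : Fin (2 ^ L), ∑ j : Fin (2 ^ L),
          z i j * (we L t i.val j.val : ℤ) := by
        rw [h0, sub_zero]
      rw [h2, ← Finset.sum_sub_distrib]
      refine Finset.dvd_sum fun i _ => ?_
      rw [← Finset.sum_sub_distrib]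
      refine Finset.dvd_sum fun j _ => ?_
      rw [← mul_sub]
      refine Dvd.dvd.mul_left ?_ _
      unfold we
      rw [← hB]
      push_cast
      exact Int.dvd_self_sub_emod
    have h3 : t ∣ (S z).natAbs := Int.natCast_dvd.1 h1
    rw [hP]
    exact h3.trans (Finset.dvd_prod_of_mem _ (hfin.mem_toFinset.2 hzZ))

end Pool.Agent.Helper70.GS
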