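import Pool.Agent.Helper79.GS.St6

/-!
# Project GS, module TCH: chains of a board, read from its number
-/

set_option autoImplicit false

namespace Pool.Agent.Helper70.GS

open Pool.Agent.Helper79.GS
open Pool.Agent.Helper19.SK Pool.Agent.Helper73.DC Finset

private theorem tch_dgt_inj : Function.Injective dgt := by
  intro a b h
  rcases a with _ | _ | _ <;> rcases b with _ | _ | _ <;> simp [dgt] at h ⊢

private theorem tch_bits (c : ℕ → Prop) (K : ℕ) :
    ∃ S < 2 ^ K, ∀ p < K, (dg 2 S p = 1 ↔ c p) := by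
  classical
  induction K with
  | zero => exact ⟨0, by simp, fun p hp => absurd hp (by omega)⟩
  | succ K ih =>
    obtain ⟨S, hS, hd⟩ := ih
    by_cases hc : c K
    · refine ⟨S + 2 ^ K, by rw [pow_succ]; omega, ?_⟩
      intro p hp
      rcases Nat.lt_succ_iff_lt_or_eq.1 hp with h | h
      · rw [← hd p h]
        unfold dg
        have h1 : (S + 2 ^ K) / 2 ^ p = S / 2 ^ p + 2 * 2 ^ (K - p - 1) := by
          have h2 : 2 ^ K = 2 * 2 ^ (K - p - 1) * 2 ^ p := by
            rw [← pow_succ', ← pow_add]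
            congr 1
            omega
          rw [h2, Nat.add_mul_div_right _ _ (by positivity)]
        rw [h1]
        simp [Nat.add_mul_mod_self_left]
      · subst h
        unfold dg
        have h1 : (S + 2 ^ p) / 2 ^ p = 1 := by
          rw [Nat.add_div_right _ (by positivity), Nat.div_eq_of_lt hS]
        rw [h1]
        simp [hc]
    · refine ⟨S, by rw [pow_succ]; omega, ?_⟩
      intro p hp
      rcases Nat.lt_succ_iff_lt_or_eq.1 hp with h | h
      · exact hd p h
      · subst h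
        unfold dg
        rw [Nat.div_eq_of_lt hS]
        simp [hc]

private theorem tch_adj (n : ℕ) (p q : Fin (n * n)) : adjN n p.val q.val ↔
    (grid n).Adj (finProdFinEquiv.symm p) (finProdFinEquiv.symm q) := by
  show adjN n p.val q.val ↔ ((p.divNat = q.divNat ∧ ((p.modNat).val + 1 = (q.modNat).val ∨
    (q.modNat).val + 1 = (p.modNat).val)) ∨ (p.modNat = q.modNat ∧ ((p.divNat).val + 1 = (q.divNat).val ∨
    (q.divNat).val + 1 = (p.divNat).val)))
  unfold adjN
  simp only [Fin.ext_iff]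
  exact Iff.rfl

theorem hTCH (hCOD : StCOD) : StTCH := by
  intro N n hN
  refine ⟨tch_adj n, ?_⟩
  intro P i x
  obtain ⟨-, hdg⟩ := (hCOD n).1 P
  have hpw : pw N 2 (n * n) = 2 ^ (n * n) := by
    unfold pw
    have : 2 ^ (n * n) ≤ 3 ^ (n * n) := Nat.pow_le_pow_left (by norm_num) _
    exact min_eq_left (by omega)
  have hcont : ∀ p q : Fin (n * n), dg 3 (codeB P) p.val = dg 3 (codeB P) q.val ↔
      P (finProdFinEquiv.symm p) = P (finProdFinEquiv.symm q) := by
    intro p q
    rw [hdg, hdg]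
    exact tch_dgt_inj.eq_iff
  unfold tchN
  rw [hpw]
  constructor
  · intro h
    obtain ⟨S, hS, hd⟩ := tch_bits (fun p => ∃ hp : p < n * n,
      Chain (grid n) P (finProdFinEquiv.symm i) (finProdFinEquiv.symm ⟨p, hp⟩)) (n * n)
    obtain ⟨p, hp, q, hq, h1, h2, h3⟩ := h S hS ((hd i.val i.isLt).2 ⟨i.isLt, Relation.ReflTransGen.refl⟩) (by
      intro p hp q hq h1 h2 h3
      obtain ⟨_, hc⟩ := (hd p hp).1 h1
      refine (hd q hq).2 ⟨hq, hc.tail ⟨?_, ?_⟩⟩
      · exact (tch_adj n ⟨p, hp⟩ ⟨q, hq⟩).1 h2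
      · exact (hcont ⟨p, hp⟩ ⟨q, hq⟩).1 h3)
    obtain ⟨_, hc⟩ := (hd p hp).1 h1
    refine ⟨_, finProdFinEquiv.symm ⟨q, hq⟩, hc, (tch_adj n ⟨p, hp⟩ ⟨q, hq⟩).1 h2, ?_⟩
    rw [← hdg ⟨q, hq⟩]
    exact h3
  · rintro ⟨w, u, hc, hadj, hx⟩ S _ hi hcl
    have key : ∀ v, Chain (grid n) P (finProdFinEquiv.symm i) v → dg 2 S (finProdFinEquiv v).val = 1 := by
      intro v hv
      induction hv with
      | refl => rw [Equiv.apply_symm_apply]; exact hi
      | @tail b d hb hbd ih =>
        refine hcl _ (finProdFinEquiv b).isLt _ (finProdFinEquiv d).isLt ih ?_ ?_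
        · rw [tch_adj, Equiv.symm_apply_apply, Equiv.symm_apply_apply]
          exact hbd.1
        · rw [hcont, Equiv.symm_apply_apply, Equiv.symm_apply_apply]
          exact hbd.2
    refine ⟨_, (finProdFinEquiv w).isLt, _, (finProdFinEquiv u).isLt, key w hc, ?_, ?_⟩
    · rw [tch_adj, Equiv.symm_apply_apply, Equiv.symm_apply_apply]
      exact hadj
    · rw [hdg, Equiv.symm_apply_apply]
      exact hx

end Pool.Agent.Helper70.GS
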